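import Pool.Agent.H37.CND.Stmts

/-!
# Row HER of the board `cnd`
-/

set_option autoImplicit false

namespace Pool.CND

open Polynomial Finset

section

variable {k L : Type} [Field k] [Field L] [Algebra k L]

theorem her_ord_prod (P : Place k L) {ι : Type} (s : Finset ι) (a : ι → L)
    (h : ∀ i ∈ s, a i ≠ 0) : P.ord (∏ i ∈ s, a i) = ∑ i ∈ s, P.ord (a i) := by
  classical
  induction s using Finset.induction_on with
  | empty => simp [P.ord_one]
  | insert b s hb ih =>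
    rw [prod_insert hb, sum_insert hb, P.ord_mul _ _ (h b (mem_insert_self _ _))
      (prod_ne_zero_iff.2 fun i hi => h i (mem_insert_of_mem hi)),
      ih fun i hi => h i (mem_insert_of_mem hi)]

theorem her_coeff (P : Place k L) {ι : Type} (s : Finset ι) (a : ι → L)
    (h : ∀ i ∈ s, P.Ge (a i) 1) (j : ℕ) :
    P.Ge ((∏ i ∈ s, (X - C (a i)) - X ^ s.card : L[X]).coeff j) 1 := by
  classical
  induction s using Finset.induction_on generalizing j with
  | empty => simpa using P.ge_zero 1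
  | insert b s hb ih =>
    have ih' := ih fun i hi => h i (mem_insert_of_mem hi)
    have hb' := h b (mem_insert_self _ _)
    have e : (∏ i ∈ insert b s, (X - C (a i)) - X ^ (insert b s).card : L[X]) =
        (∏ i ∈ s, (X - C (a i)) - X ^ s.card) * X -
          C (a b) * (∏ i ∈ s, (X - C (a i)) - X ^ s.card) - C (a b) * X ^ s.card := by
      rw [prod_insert hb, card_insert_of_notMem hb]; ring
    rw [e, coeff_sub, coeff_sub, coeff_C_mul, coeff_C_mul, coeff_X_pow]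
    refine P.ge_sub (P.ge_sub ?_ ?_) ?_
    · rcases j with _ | j
      · rw [mul_coeff_zero, coeff_X_zero, mul_zero]; exact P.ge_zero 1
      · rw [coeff_mul_X]; exact ih' j
    · exact P.ge_mono (P.ge_mul hb' (ih' j)) (by norm_num)
    · split_ifs
      · rw [mul_one]; exact hb'
      · rw [mul_zero]; exact P.ge_zero 1

theorem her_unif (hLON : S_LON) (hINJ : S_INJ) (Q : Place k L) (γ : L ≃ₐ[k] L) (hQ : Fixes Q γ)
    (hγ : γ ≠ 1) : (∀ x : L, Q.Ge x 1 → Q.Ge (γ x - x) (1 + Q.b γ)) ∧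
      ∀ x : L, x ≠ 0 → Q.ord x = 1 → γ x - x ≠ 0 ∧ Q.ord (γ x - x) = 1 + Q.b γ := by
  have h1 : γ Q.pi ≠ Q.pi := fun h => hγ (hINJ k L Q γ Q.pi hQ Q.pi_ne Q.ord_pi h)
  have h1' : γ Q.pi - Q.pi ≠ 0 := sub_ne_zero.2 h1
  have hb : Q.b γ = Q.ord (γ Q.pi - Q.pi) - 1 := rfl
  have h2 : Q.Ge Q.pi 1 := Or.inr (by rw [Q.ord_pi])
  have h3 : 1 ≤ Q.ord (γ Q.pi - Q.pi) := (Q.ge_sub (hQ.ge h2) h2).resolve_left h1'
  have h4 : 0 ≤ Q.b γ := by omega
  have h5 := hLON k L Q γ Q.pi (Q.b γ) hQ Q.pi_ne Q.ord_pi h4 (Or.inr (by omega))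
  have h6 : ∀ x : L, Q.Ge x 1 → Q.Ge (γ x - x) (1 + Q.b γ) := by
    intro x hx
    by_cases hx0 : x = 0
    · rw [hx0, map_zero, sub_zero]; exact Q.ge_zero _
    · have h7 := hx.resolve_left hx0
      exact Q.ge_mono ((h5 x).resolve_right hx0) (by omega)
  refine ⟨h6, fun x hx hx1 => ?_⟩
  have h7 : γ x ≠ x := fun h => hγ (hINJ k L Q γ x hQ hx hx1 h)
  have h7' : γ x - x ≠ 0 := sub_ne_zero.2 h7
  have h8 := (h6 x (Or.inr (by rw [hx1]))).resolve_left h7'
  refine ⟨h7', le_antisymm ?_ h8⟩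
  by_contra hc
  rw [not_le] at hc
  have h9 := (hLON k L Q γ x (Q.b γ + 1) hQ hx hx1 (by omega) (Or.inr (by omega)) Q.pi).resolve_right
    Q.pi_ne
  have h10 := h9.resolve_left h1'
  rw [Q.ord_pi] at h10
  omega

end

theorem her_thm (hLON : S_LON) (hINJ : S_INJ) : S_HER := by
  intro k L G _ _ _ _ _ P ρ N F Q g γ hρ hN hF hQ hgN hg hγ hQγ hγ1
  classical
  obtain ⟨A, hA⟩ : ∃ A : Finset G, ∀ x, x ∈ A ↔ x ∈ N :=
    ⟨univ.filter (fun x => x ∈ N), fun x => by simp⟩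
  have hcard : Nat.card N = A.card := Nat.subtype_card A hA
  have hA1 : (1 : G) ∈ A := (hA 1).2 N.one_mem
  have hApos : 0 < A.card := card_pos.2 ⟨1, hA1⟩
  obtain ⟨u, hu⟩ : ∃ u, u = P.pi := ⟨_, rfl⟩
  have hu0 : u ≠ 0 := hu ▸ P.pi_ne
  have hu1 : P.ord u = 1 := hu ▸ P.ord_pi
  have hb : ∀ s : L ≃ₐ[k] L, P.b s = P.ord (s u - u) - 1 := fun s => by rw [hu]; rfl
  let σ : G → (L →+* L) := fun h => ((ρ h : L ≃ₐ[k] L) : L →ₐ[k] L).toRingHom
  have hσ : ∀ h x, σ h x = ρ h x := fun _ _ => rfl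
  obtain ⟨f, hf⟩ : ∃ f : L[X], f = ∏ x ∈ A, (X - C (ρ x u)) := ⟨_, rfl⟩
  obtain ⟨D, hD⟩ : ∃ D : L[X], D = f - X ^ A.card := ⟨_, rfl⟩
  have hmap : ∀ h, f.map (σ h) = ∏ x ∈ A, (X - C (ρ (h * x) u)) := by
    intro h
    rw [hf, Polynomial.map_prod]
    refine prod_congr rfl fun x _ => ?_
    rw [Polynomial.map_sub, map_X, map_C, hσ, map_mul]
    rfl
  have hfix : ∀ h ∈ N, f.map (σ h) = f := by
    intro h hh
    rw [hmap, hf]
    refine Finset.prod_bij (fun x _ => h * x) ?_ ?_ ?_ ?_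
    · intro x hx
      exact (hA _).2 (N.mul_mem hh ((hA x).1 hx))
    · intro x _ y _ hxy
      exact mul_left_cancel hxy
    · intro y hy
      exact ⟨h⁻¹ * y, (hA _).2 (N.mul_mem (N.inv_mem hh) ((hA y).1 hy)), mul_inv_cancel_left h y⟩
    · intro x _
      rfl
  have hDF : ∀ j, D.coeff j ∈ F := by
    intro j
    rw [hF]
    intro n hn
    have h1 : D.map (σ n) = D := by
      rw [hD, Polynomial.map_sub, hfix n hn, Polynomial.map_pow, map_X]
    have h2 : (D.map (σ n)).coeff j = D.coeff j := by rw [h1]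
    rwa [coeff_map] at h2
  have hDge : ∀ j, P.Ge (D.coeff j) 1 := by
    intro j
    rw [hD, hf]
    refine her_coeff P A (fun x => ρ x u) (fun x hx => Or.inr ?_) j
    rw [hN x ((hA x).1 hx) u hu0, hu1]
  have hD0 : D.coeff 0 ≠ 0 ∧ P.ord (D.coeff 0) = A.card := by
    have h1 : D.coeff 0 = ∏ x ∈ A, (-(ρ x u)) := by
      rw [hD, coeff_sub, coeff_X_pow, if_neg hApos.ne, sub_zero, hf, coeff_zero_eq_eval_zero,
        eval_prod]
      refine prod_congr rfl fun x _ => ?_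
      rw [eval_sub, eval_X, eval_C, zero_sub]
    have h2 : ∀ x ∈ A, -(ρ x u) ≠ 0 := fun x _ => neg_ne_zero.2 (by simpa using hu0)
    refine ⟨by rw [h1]; exact prod_ne_zero_iff.2 h2, ?_⟩
    rw [h1, her_ord_prod P A _ h2]
    have h3 : ∀ x ∈ A, P.ord (-(ρ x u)) = 1 := fun x hx => by
      rw [P.ord_neg, hN x ((hA x).1 hx) u hu0, hu1]
    rw [sum_congr rfl h3]
    simp
  obtain ⟨hU1, hU2⟩ := her_unif hLON hINJ Q γ hQγ hγ1
  obtain ⟨B, hB⟩ : ∃ B, B = Q.b γ := ⟨_, rfl⟩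
  rw [← hB] at hU1 hU2 ⊢
  have hcast : ∀ x : F, x ≠ 0 → (A.card : ℤ) * Q.ord x = P.ord (x : L) := by
    rw [← hcard]; exact hQ
  have hAc : (0 : ℤ) < A.card := by exact_mod_cast hApos
  -- the coefficients of `D ^ g - D`
  have hco : ∀ j, P.Ge (ρ g (D.coeff j) - D.coeff j) (A.card * (1 + B)) := by
    intro j
    have h1 : Q.Ge (⟨D.coeff j, hDF j⟩ : F) 1 := by
      by_cases h0 : (⟨D.coeff j, hDF j⟩ : F) = 0
      · exact Or.inl h0
      · have h0' : D.coeff j ≠ 0 := fun h => h0 (Subtype.ext h)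
        have h2 := hcast _ h0
        have h3 := (hDge j).resolve_left h0'
        have h4 : P.ord (((⟨D.coeff j, hDF j⟩ : F) : L)) = P.ord (D.coeff j) := rfl
        rw [h4] at h2
        refine Or.inr ?_
        by_contra hc
        rw [not_le] at hc
        have h5 : Q.ord (⟨D.coeff j, hDF j⟩ : F) ≤ 0 := by omega
        have h6 := mul_nonpos_of_nonneg_of_nonpos hAc.le h5
        omega
    have h2 := hU1 _ h1
    have h3 : ((γ ⟨D.coeff j, hDF j⟩ - ⟨D.coeff j, hDF j⟩ : F) : L) =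
        ρ g (D.coeff j) - D.coeff j := by
      rw [AddSubgroupClass.coe_sub, hγ]
    rw [← h3]
    by_cases h0 : (γ ⟨D.coeff j, hDF j⟩ - ⟨D.coeff j, hDF j⟩ : F) = 0
    · rw [h0]; exact P.ge_zero _
    · refine Or.inr ?_
      rw [← hcast _ h0]
      exact mul_le_mul_of_nonneg_left (h2.resolve_left h0) hAc.le
  have hc0 : ρ g (D.coeff 0) - D.coeff 0 ≠ 0 ∧
      P.ord (ρ g (D.coeff 0) - D.coeff 0) = A.card * (1 + B) := by
    have h0 : (⟨D.coeff 0, hDF 0⟩ : F) ≠ 0 := fun h => hD0.1 (congrArg Subtype.val h)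
    have h1 : Q.ord (⟨D.coeff 0, hDF 0⟩ : F) = 1 := by
      have h2 := hcast _ h0
      have h4 : P.ord (((⟨D.coeff 0, hDF 0⟩ : F) : L)) = P.ord (D.coeff 0) := rfl
      rw [h4, hD0.2] at h2
      exact mul_left_cancel₀ hAc.ne' (h2.trans (mul_one _).symm)
    obtain ⟨h2, h2'⟩ := hU2 _ h0 h1
    have h3 : ((γ ⟨D.coeff 0, hDF 0⟩ - ⟨D.coeff 0, hDF 0⟩ : F) : L) =
        ρ g (D.coeff 0) - D.coeff 0 := by
      rw [AddSubgroupClass.coe_sub, hγ]
    rw [← h3]
    refine ⟨fun h => h2 (Subtype.ext h), ?_⟩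
    rw [← hcast _ h2, h2']
  -- the value at `u`
  have hfu : f.eval u = 0 := by
    rw [hf, eval_prod]
    refine prod_eq_zero hA1 ?_
    rw [eval_sub, eval_X, eval_C, map_one]
    exact sub_self u
  have hval : (f.map (σ g)).eval u = (D.map (σ g) - D).eval u := by
    rw [hD, Polynomial.map_sub, Polynomial.map_pow, map_X, eval_sub, eval_sub, eval_sub, hfu]
    ring
  have hexp : (D.map (σ g) - D).eval u =
      (ρ g (D.coeff 0) - D.coeff 0) + ∑ j ∈ range (D.map (σ g) - D).natDegree,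
        (ρ g (D.coeff (j + 1)) - D.coeff (j + 1)) * u ^ (j + 1) := by
    rw [eval_eq_sum_range, sum_range_succ', add_comm]
    simp only [coeff_sub, coeff_map, hσ, pow_zero, mul_one]
  have hrest : P.Ge (∑ j ∈ range (D.map (σ g) - D).natDegree,
      (ρ g (D.coeff (j + 1)) - D.coeff (j + 1)) * u ^ (j + 1))
      (P.ord (ρ g (D.coeff 0) - D.coeff 0) + 1) := by
    refine P.ge_sum _ _ _ fun j _ => ?_
    rw [hc0.2]
    refine P.ge_mono (P.ge_mul (hco (j + 1)) (Or.inr le_rfl : P.Ge (u ^ (j + 1)) _)) ?_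
    rw [P.ord_pow hu0, hu1]
    push_cast
    omega
  have hsum := P.ord_add_of_lt hc0.1 hrest
  rw [← hexp, ← hval, hc0.2, hmap, eval_prod] at hsum
  have hev : ∏ x ∈ A, (X - C (ρ (g * x) u) : L[X]).eval u = ∏ x ∈ A, (u - ρ (g * x) u) :=
    prod_congr rfl fun x _ => by rw [eval_sub, eval_X, eval_C]
  rw [hev] at hsum
  have hne : ∀ x ∈ A, u - ρ (g * x) u ≠ 0 := prod_ne_zero_iff.1 hsum.1
  have h1 := hsum.2
  rw [her_ord_prod P A _ hne] at h1
  have h2 : ∀ x ∈ A, P.ord (u - ρ (g * x) u) = P.b (ρ (g * x)) + 1 := by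
    intro x _
    rw [hb, ← P.ord_neg, neg_sub]
    ring
  rw [sum_congr rfl h2, sum_add_distrib, sum_const, nsmul_eq_mul, mul_one] at h1
  have h3 : sm (fun x => P.b (ρ x)) {x | g⁻¹ * x ∈ N} = ∑ x ∈ A, P.b (ρ (g * x)) := by
    unfold sm
    symm
    refine Finset.sum_bij (fun x _ => g * x) ?_ ?_ ?_ ?_
    · intro x hx
      simpa using (hA x).1 hx
    · intro x _ y _ hxy
      exact mul_left_cancel hxy
    · intro y hy
      refine ⟨g⁻¹ * y, (hA _).2 ?_, mul_inv_cancel_left g y⟩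
      simpa using hy
    · intro x _
      rfl
  rw [h3, hcard]
  linarith

end Pool.CND
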