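import Pool.Agent.H37.CND.Stmts

/-!
# Row UNI of the board `cnd`
-/

set_option autoImplicit false

namespace Pool.CND

open Polynomial

theorem uni_span_aux {A : Type} [CommRing A] (g : A[X]) (hg : g.Monic) {n : ℕ}
    (hn : g.natDegree = n) (z : AdjoinRoot g) :
    ∃ c : Fin n → A, z = ∑ i, AdjoinRoot.of g (c i) * AdjoinRoot.root g ^ (i : ℕ) := by
  subst hn
  refine ⟨fun i => (AdjoinRoot.powerBasis' hg).basis.repr z i, ?_⟩
  have h := (AdjoinRoot.powerBasis' hg).basis.sum_repr z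
  rw [← h]
  conv_rhs => rw [h]
  refine Finset.sum_congr rfl fun i _ => ?_
  rw [PowerBasis.basis_eq_pow, Algebra.smul_def]
  rfl

theorem uni_thm : S_UNI := by
  intro K _ p h a hp hh
  have hp2 : 2 ≤ p := hp.two_le
  have hN : 1 < p ^ (2 * h) := Nat.one_lt_pow (by omega) hp.one_lt
  let f : K[X] := X ^ (p ^ (2 * h)) + (X - C a)
  have hfdeg : (X - C a : K[X]).natDegree < (X ^ (p ^ (2 * h)) : K[X]).natDegree := by
    rw [natDegree_X_sub_C, natDegree_X_pow]; exact hN
  have hfd' : (X - C a : K[X]).degree < (X ^ (p ^ (2 * h)) : K[X]).degree := by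
    rw [degree_X_sub_C, degree_X_pow]; exact_mod_cast hN
  have hf : f.Monic := (monic_X_pow _).add_of_left hfd'
  have hfn : f.natDegree = p ^ (2 * h) := by
    rw [show f = X ^ (p ^ (2 * h)) + (X - C a) from rfl, natDegree_add_eq_left_of_natDegree_lt hfdeg,
      natDegree_X_pow]
  have hfd : f.degree ≠ 0 := by
    rw [degree_eq_natDegree hf.ne_zero, hfn]
    have : p ^ (2 * h) ≠ 0 := by omega
    exact_mod_cast this
  let R₁ := AdjoinRoot f
  have : Nontrivial R₁ := AdjoinRoot.nontrivial f hfd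
  let x₁ : R₁ := AdjoinRoot.root f
  let g : R₁[X] := X ^ p - (X + C (x₁ ^ (p ^ h + 1)))
  have hgdeg : (X + C (x₁ ^ (p ^ h + 1)) : R₁[X]).natDegree < (X ^ p : R₁[X]).natDegree := by
    rw [natDegree_X_add_C, natDegree_X_pow]; omega
  have hgd' : (X + C (x₁ ^ (p ^ h + 1)) : R₁[X]).degree < (X ^ p : R₁[X]).degree := by
    rw [degree_X_add_C, degree_X_pow]
    have : 1 < p := hp.one_lt
    exact_mod_cast this
  have hg : g.Monic := (monic_X_pow _).sub_of_left hgd'
  have hgn : g.natDegree = p := by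
    rw [show g = X ^ p - (X + C (x₁ ^ (p ^ h + 1))) from rfl,
      natDegree_sub_eq_left_of_natDegree_lt hgdeg, natDegree_X_pow]
  have hx₁ : x₁ ^ (p ^ (2 * h)) + x₁ = AdjoinRoot.of f a := by
    have h1 := AdjoinRoot.eval₂_root f
    rw [show f = X ^ (p ^ (2 * h)) + (X - C a) from rfl] at h1
    simp only [eval₂_add, eval₂_sub, eval₂_X, eval₂_C, eval₂_X_pow] at h1
    linear_combination h1
  refine ⟨AdjoinRoot g, inferInstance, inferInstance, AdjoinRoot.of g x₁, AdjoinRoot.root g,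
    ?_, ?_, ?_, ?_⟩
  · rw [← map_pow, ← map_add, hx₁]
    rfl
  · have h1 := AdjoinRoot.eval₂_root g
    rw [show g = X ^ p - (X + C (x₁ ^ (p ^ h + 1))) from rfl] at h1
    simp only [eval₂_add, eval₂_sub, eval₂_X, eval₂_C, eval₂_X_pow] at h1
    rw [← map_pow]
    linear_combination h1
  · intro z
    obtain ⟨c, hc⟩ := uni_span_aux g hg hgn z
    choose d hd using fun j => uni_span_aux f hf hfn (c j)
    refine ⟨fun i j => d j i, ?_⟩
    rw [hc, Finset.sum_comm]
    refine Finset.sum_congr rfl fun j _ => ?_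
    rw [hd j, map_sum, Finset.sum_mul]
    refine Finset.sum_congr rfl fun i _ => ?_
    rw [map_mul, map_pow]
    rfl
  · intro R' _ _ x' y' hx' hy'
    let φ₁ : R₁ →+* R' := AdjoinRoot.lift (algebraMap K R') x' (by
      rw [show f = X ^ (p ^ (2 * h)) + (X - C a) from rfl]
      simp only [eval₂_add, eval₂_sub, eval₂_X, eval₂_C, eval₂_X_pow]
      linear_combination hx')
    have hφ₁ : φ₁ x₁ = x' := AdjoinRoot.lift_root _
    have hφ₁' : ∀ c : K, φ₁ (AdjoinRoot.of f c) = algebraMap K R' c := fun c =>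
      AdjoinRoot.lift_of _
    let φ : AdjoinRoot g →+* R' := AdjoinRoot.lift φ₁ y' (by
      rw [show g = X ^ p - (X + C (x₁ ^ (p ^ h + 1))) from rfl]
      simp only [eval₂_add, eval₂_sub, eval₂_X, eval₂_C, eval₂_X_pow]
      rw [map_pow, hφ₁]
      linear_combination hy')
    have hφ : φ (AdjoinRoot.root g) = y' := AdjoinRoot.lift_root _
    have hφ' : ∀ c : R₁, φ (AdjoinRoot.of g c) = φ₁ c := fun c => AdjoinRoot.lift_of _
    refine ⟨{ φ with commutes' := fun c => ?_ }, ?_, ?_⟩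
    · change φ (AdjoinRoot.of g (AdjoinRoot.of f c)) = _
      rw [hφ', hφ₁']
    · change φ (AdjoinRoot.of g x₁) = _
      rw [hφ', hφ₁]
    · exact hφ

end Pool.CND
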